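import Mathlib

/-!
# One exceptional set: a compactness argument with an ultrafilter on the strings of all levels
-/

set_option autoImplicit false

namespace Pool.Agent.U289.GX

open Finset Filter

open Classical in
/-- the number of the elements of `s` with the property `P` -/
noncomputable def cnt {α : Type*} (s : Finset α) (P : α → Prop) : ℕ := (s.filter P).card

theorem cnt_le_card {α : Type*} {s : Finset α} {P : α → Prop} {t : Finset α} (h : ∀ n ∈ s, P n → n ∈ t) :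
    cnt s P ≤ t.card := by
  classical
  unfold cnt
  apply card_le_card
  intro n hn
  rw [mem_filter] at hn
  exact h n hn.1 hn.2

theorem cnt_mono {α : Type*} {s : Finset α} {P Q : α → Prop} (h : ∀ n ∈ s, P n → Q n) : cnt s P ≤ cnt s Q := by
  classical
  unfold cnt
  apply card_le_card
  intro n hn
  rw [mem_filter] at hn ⊢
  exact ⟨hn.1, h n hn.1 hn.2⟩

theorem cnt_or {α : Type*} (s : Finset α) (P Q R : α → Prop) (h : ∀ n ∈ s, P n → Q n ∨ R n) :
    cnt s P ≤ cnt s Q + cnt s R := by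
  classical
  unfold cnt
  refine le_trans (card_le_card ?_) (card_union_le _ _)
  intro n hn
  rw [mem_union, mem_filter, mem_filter]
  rw [mem_filter] at hn
  rcases h n hn.1 hn.2 with h1 | h1
  · exact Or.inl ⟨hn.1, h1⟩
  · exact Or.inr ⟨hn.1, h1⟩

theorem cnt_all {α : Type*} {s : Finset α} {P : α → Prop} (h : ∀ n ∈ s, P n) : cnt s P = s.card := by
  classical
  unfold cnt
  rw [filter_true_of_mem h]

theorem cnt_none {α : Type*} {s : Finset α} {P : α → Prop} (h : ∀ n ∈ s, ¬ P n) : cnt s P = 0 := by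
  classical
  unfold cnt
  rw [filter_false_of_mem h, card_empty]

/-- The filter of the sets of triples `(i, N, n)` which contain, for all large levels `i`, nearly all `n` in `T i N`
for all large `N`. -/
noncomputable def alm (T : ℕ → ℕ → Finset ℕ) : Filter (ℕ × ℕ × ℕ) where
  sets := {A | ∀ᶠ i : ℕ in atTop, ∃ c : ℝ, ∀ᶠ N : ℕ in atTop,
    Real.log N * (cnt (T i N) (fun n => (i, N, n) ∉ A) : ℝ) ≤ c * (T i N).card}
  univ_sets := by
    refine Eventually.of_forall fun i => ⟨0, Eventually.of_forall fun N => ?_⟩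
    rw [cnt_none (fun n _ h => h (Set.mem_univ _))]
    simp
  sets_of_superset := by
    intro A A' hA hAA'
    filter_upwards [hA] with i hi
    obtain ⟨c, hc⟩ := hi
    refine ⟨c, ?_⟩
    filter_upwards [hc] with N hN
    refine le_trans ?_ hN
    apply mul_le_mul_of_nonneg_left _ (Real.log_natCast_nonneg N)
    have h3 : cnt (T i N) (fun n => (i, N, n) ∉ A') ≤ cnt (T i N) (fun n => (i, N, n) ∉ A) :=
      cnt_mono (fun n _ h h' => h (hAA' h'))
    exact_mod_cast h3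
  inter_sets := by
    intro A A' hA hA'
    filter_upwards [hA, hA'] with i hi hi'
    obtain ⟨c, hc⟩ := hi
    obtain ⟨c', hc'⟩ := hi'
    refine ⟨c + c', ?_⟩
    filter_upwards [hc, hc'] with N h1 h2
    have h4 : (cnt (T i N) (fun n => (i, N, n) ∉ A ∩ A') : ℝ) ≤
        cnt (T i N) (fun n => (i, N, n) ∉ A) + cnt (T i N) (fun n => (i, N, n) ∉ A') := by
      have h3 := cnt_or (T i N) (fun n => (i, N, n) ∉ A ∩ A') (fun n => (i, N, n) ∉ A)
        (fun n => (i, N, n) ∉ A') (fun n _ h => by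
          by_cases h' : (i, N, n) ∈ A
          · exact Or.inr fun h'' => h ⟨h', h''⟩
          · exact Or.inl h')
      exact_mod_cast h3
    have h5 := mul_le_mul_of_nonneg_left h4 (Real.log_natCast_nonneg N)
    linarith

theorem mem_alm (T : ℕ → ℕ → Finset ℕ) (A : Set (ℕ × ℕ × ℕ)) : A ∈ alm T ↔
    ∀ᶠ i : ℕ in atTop, ∃ c : ℝ, ∀ᶠ N : ℕ in atTop,
      Real.log N * (cnt (T i N) (fun n => (i, N, n) ∉ A) : ℝ) ≤ c * (T i N).card := Iff.rfl

theorem alm_neBot (T : ℕ → ℕ → Finset ℕ) (hT : ∀ i, ∀ᶠ N : ℕ in atTop, 0 < (T i N).card) :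
    (alm T).NeBot := by
  refine ⟨fun hbot => ?_⟩
  have h0 := Filter.empty_mem_iff_bot.2 hbot
  rw [mem_alm] at h0
  obtain ⟨i, c, hc⟩ := h0.exists
  have hlog : ∀ᶠ N : ℕ in atTop, c + 1 ≤ Real.log (N : ℝ) :=
    (Real.tendsto_log_atTop.comp tendsto_natCast_atTop_atTop).eventually_ge_atTop _
  obtain ⟨N, h1, h2, h3⟩ := ((hT i).and (hc.and hlog)).exists
  rw [cnt_all (fun n _ => Set.notMem_empty _)] at h2
  have h5 : (0 : ℝ) < (T i N).card := by exact_mod_cast h1
  nlinarith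

/-- **One exceptional set.** -/
theorem compact_one {ι : Type*} (T : ℕ → ℕ → Finset ℕ) (hT : ∀ i, ∀ᶠ N : ℕ in atTop, 0 < (T i N).card)
    (Bd : ι → ℕ × ℕ × ℕ → Prop) :
    ∃ E : Set ι, (∀ (J : Finset ι) (M : ℕ), (J : Set ι) ⊆ E →
      (∀ᶠ i : ℕ in atTop, ∀ᶠ N : ℕ in atTop,
        Real.log N * (cnt (T i N) (fun n => M < cnt J (fun V => Bd V (i, N, n))) : ℝ) ≤
          (T i N).card) → J.card ≤ M) ∧
      ∀ F : Finset ι, (∀ V ∈ F, V ∉ E) → ∀ i₀ : ℕ, ∃ i ≥ i₀, ∃ᶠ N : ℕ in atTop,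
        ((T i N).card : ℝ) ≤ Real.log N * (cnt (T i N) (fun n => ∀ V ∈ F, ¬ Bd V (i, N, n)) : ℝ) := by
  have hne := alm_neBot T hT
  obtain ⟨U, hU⟩ : ∃ U : Ultrafilter (ℕ × ℕ × ℕ), (U : Filter (ℕ × ℕ × ℕ)) ≤ alm T :=
    ⟨Ultrafilter.of (alm T), Ultrafilter.of_le _⟩
  refine ⟨{V | ∀ᶠ w in (U : Filter (ℕ × ℕ × ℕ)), Bd V w}, ?_, ?_⟩
  · intro J M hJ hbad
    have h1 : ∀ᶠ w in (U : Filter (ℕ × ℕ × ℕ)), ∀ V ∈ J, Bd V w :=
      (Finset.eventually_all J).2 fun V hV => hJ hV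
    have h2 : ∀ᶠ w in (U : Filter (ℕ × ℕ × ℕ)), cnt J (fun V => Bd V w) ≤ M := by
      apply hU
      rw [mem_alm]
      filter_upwards [hbad] with i hi
      refine ⟨1, ?_⟩
      filter_upwards [hi] with N hN
      rw [one_mul]
      refine le_trans ?_ hN
      apply mul_le_mul_of_nonneg_left _ (Real.log_natCast_nonneg N)
      exact_mod_cast cnt_mono (fun n _ h => not_le.1 h)
    obtain ⟨w, h3, h4⟩ := (h1.and h2).exists
    rwa [cnt_all h3] at h4
  · intro F hF i₀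
    have h1 : ∀ᶠ w in (U : Filter (ℕ × ℕ × ℕ)), ∀ V ∈ F, ¬ Bd V w :=
      (Finset.eventually_all F).2 fun V hV => Ultrafilter.eventually_not.2 (hF V hV)
    by_contra hcon
    have h2 : ∀ᶠ w in (U : Filter (ℕ × ℕ × ℕ)), ¬ ∀ V ∈ F, ¬ Bd V w := by
      apply hU
      rw [mem_alm]
      filter_upwards [eventually_ge_atTop i₀] with i hi
      refine ⟨1, ?_⟩
      have h3 : ∀ᶠ N : ℕ in atTop, ¬ ((T i N).card : ℝ) ≤
          Real.log N * (cnt (T i N) (fun n => ∀ V ∈ F, ¬ Bd V (i, N, n)) : ℝ) := by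
        rw [← not_frequently]
        exact fun h => hcon ⟨i, hi, h⟩
      filter_upwards [h3] with N hN
      rw [one_mul]
      refine le_trans ?_ (not_le.1 hN).le
      apply mul_le_mul_of_nonneg_left _ (Real.log_natCast_nonneg N)
      exact_mod_cast cnt_mono (fun n _ h => not_not.1 h)
    obtain ⟨w, h3, h4⟩ := (h1.and h2).exists
    exact h4 h3

end Pool.Agent.U289.GX
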