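import Pool.Agent.U289.GX.Str

/-!
# One exceptional set of groups for all finite sets of groups, all indices and all moduli of a chain
-/

set_option autoImplicit false

namespace Pool.Agent.U289.GX

open Finset Filter Pool.Agent.R498.MX

theorem chain {m a : ℕ → ℕ} (hm : ∀ i, m i ∣ m (i + 1)) (ha : ∀ i, a (i + 1) ≡ a i [MOD m i]) {i j : ℕ}
    (hij : i ≤ j) : m i ∣ m j ∧ a j ≡ a i [MOD m i] := by
  induction j, hij using Nat.le_induction with
  | base => exact ⟨dvd_rfl, Nat.ModEq.refl _⟩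
  | succ j hj ih => exact ⟨ih.1.trans (hm j), ((ha j).of_dvd ih.1).trans ih.2⟩

/-- All primes of the interval `[n, n + S]` are `≡ a` modulo `m`, and modulo each of them all groups in `F`
consist of units and have images whose index divides `κ`. -/
def GoodAt (m a κ S : ℕ) (F : Finset (Subgroup ℚˣ)) (n : ℕ) : Prop :=
  ∀ p ∈ Icc n (n + S), ∀ hp : p.Prime, p ≡ a [MOD m] ∧ ∀ V ∈ F, V ≤ Qs p hp 0 ∧ (img p V).index ∣ κ

open Classical in
theorem main (r : ℕ) : ∃ R C B : ℕ, ∀ m a : ℕ → ℕ, (∀ i, 0 < m i) → (∀ i, m i ∣ m (i + 1)) →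
    (∀ i, (a i).Coprime (m i)) → (∀ i, a (i + 1) ≡ a i [MOD m i]) →
    ∃ E : Set (Subgroup ℚˣ),
      (∀ h : ℕ, 1 ≤ h → ∀ J : Finset (Subgroup ℚˣ), (J : Set (Subgroup ℚˣ)) ⊆ E →
        (∀ I ⊆ J, I.card = h → RankGE R (sSup (I : Set (Subgroup ℚˣ)))) → J.card ≤ C * (h - 1)) ∧
      (∀ V ∈ E, V.FG) ∧
      ∀ κ : ℕ, 0 < κ → ∀ i₀ : ℕ, (∀ i ≥ i₀, ∀ l : ℕ, l.Prime → l ≠ 2 → l ∣ m i →
        ¬ a i ≡ 1 [MOD Nat.gcd (m i) (l ^ (κ.factorization l + 1))]) →
      ∀ F : Finset (Subgroup ℚˣ), (∀ V ∈ F, V.FG ∧ V ∉ E ∧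
        ((∃ i N₀ : ℕ, ∀ q : ℕ, N₀ < q → q.Prime → q ≡ a i [MOD m i] →
          ∃ w ∈ V, ¬ IsSquare (((w : ℚ).num * (w : ℚ).den : ℤ) : ZMod q)) ∨
        ∃ i, ¬ a i ≡ 1 [MOD Nat.gcd (m i) (2 ^ (κ.factorization 2 + 1))])) →
      ∀ i : ℕ, ∃ S : ℕ, ∃ᶠ N : ℕ in atTop, (N : ℝ) ≤ Real.log N ^ B *
        (cnt (Ioc N (2 * N)) (fun n => r < #{p ∈ Icc n (n + S) | p.Prime} ∧
          GoodAt (m i) (a i) κ S F n) : ℝ) := by
  obtain ⟨k, P₀, B, δ, hδ, hδ1, hP₀, hstr⟩ := strT r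
  obtain ⟨K, hK⟩ : ∃ K : ℕ, K = ⌈2 / δ⌉₊ := ⟨_, rfl⟩
  refine ⟨K, 2 ^ k * K, B + 1, fun m a hm0 hm ham ha => ?_⟩
  -- the levels
  obtain ⟨Wm, hWm⟩ : ∃ Wm : ℕ → ℕ, ∀ i, Wm i = m i * primorial P₀ := ⟨_, fun _ => rfl⟩
  have hW0 : ∀ i, 0 < Wm i := fun i => by rw [hWm]; exact Nat.mul_pos (hm0 i) (primorial_pos P₀)
  have hWp : ∀ i, ∀ p : ℕ, p.Prime → p ≤ P₀ → p ∣ Wm i := fun i p hp hpP => by
    rw [hWm]
    exact (hp.dvd_primorial_iff.2 hpP).mul_left (m i)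
  have h2W : ∀ i, 2 ∣ Wm i := fun i => hWp i 2 Nat.prime_two hP₀
  have hmW : ∀ i, m i ∣ Wm i := fun i => by rw [hWm]; exact dvd_mul_right (m i) _
  have hcl : ∀ i, ∃ c : ℕ, c.Coprime (Wm i) ∧
      (∀ q : ℕ, q.Prime → q ∣ Wm i → ¬ q ∣ m i → q ≠ 2 → ¬ c ≡ 1 [MOD q]) ∧ c ≡ a i [MOD m i] := fun i => by
    rw [hWm]
    exact class_exX (m i) (a i) (ham i) P₀
  choose c hcW hc1 hca using hcl
  have hSex : ∀ i, ∃ S : ℕ, ∀ c : ℕ, c.Coprime (Wm i) → ∀ᶠ N : ℕ in atTop,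
      ∃ T : Finset ℕ, Str r k B δ (Wm i) c S N T := fun i => hstr (Wm i) (hW0 i) (hWp i)
  choose S hS using hSex
  have hTex : ∀ i N : ℕ, ∃ T : Finset ℕ, (∃ T' : Finset ℕ, Str r k B δ (Wm i) (c i) (S i) N T') →
      Str r k B δ (Wm i) (c i) (S i) N T := by
    intro i N
    by_cases h : ∃ T' : Finset ℕ, Str r k B δ (Wm i) (c i) (S i) N T'
    · obtain ⟨T', hT'⟩ := h
      exact ⟨T', fun _ => hT'⟩
    · exact ⟨∅, fun h' => absurd h' h⟩
  choose T hT using hTex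
  have hTS : ∀ i, ∀ᶠ N : ℕ in atTop, Str r k B δ (Wm i) (c i) (S i) N (T i N) := by
    intro i
    filter_upwards [hS i (c i) (hcW i)] with N hN
    exact hT i N hN
  have hTpos : ∀ i, ∀ᶠ N : ℕ in atTop, 0 < (T i N).card := by
    intro i
    filter_upwards [hTS i, eventually_ge_atTop 3] with N hN hN3
    by_contra hcon
    have h0 : (T i N).card = 0 := by omega
    have h1 := hN.1
    rw [h0, Nat.cast_zero, mul_zero] at h1
    have : (3 : ℝ) ≤ N := by exact_mod_cast hN3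
    linarith
  obtain ⟨E, hE1, hE2⟩ := compact_one (ι := Subgroup ℚˣ) T hTpos
    (fun V w => Bad (Wm w.1) (S w.1) V w.2.2)
  refine ⟨{V | V ∈ E ∧ V.FG}, ?_, fun V hV => hV.2, ?_⟩
  · intro h hh J hJE hJ
    refine hE1 J _ (fun V hV => (hJE hV).1) (Eventually.of_forall fun i => ?_)
    filter_upwards [hTS i, few_strings r k B δ hδ K hK (Wm i) (c i) (S i) (h2W i) J
      (fun V hV => (hJE hV).2) h hh hJ] with N hN1 hN2
    exact hN2 (T i N) hN1
  · intro κ hκ i₀ hodd F hF i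
    -- a level at which everything is decided
    have hlev : ∀ V : Subgroup ℚˣ, ∃ iV NV : ℕ, V ∈ F → ∀ j ≥ iV,
        (∀ q : ℕ, NV < q → q.Prime → q ≡ a j [MOD m j] →
          ∃ w ∈ V, ¬ IsSquare (((w : ℚ).num * (w : ℚ).den : ℤ) : ZMod q)) ∨
        ¬ a j ≡ 1 [MOD Nat.gcd (m j) (2 ^ (κ.factorization 2 + 1))] := by
      intro V
      by_cases hV : V ∈ F
      · rcases (hF V hV).2.2 with ⟨iV, NV, h1⟩ | ⟨iV, h1⟩
        · refine ⟨iV, NV, fun _ j hj => Or.inl fun q hq hqp hqa => h1 q hq hqp ?_⟩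
          obtain ⟨g1, g2⟩ := chain hm ha hj
          exact (hqa.of_dvd g1).trans g2
        · refine ⟨iV, 0, fun _ j hj => Or.inr fun h2 => h1 ?_⟩
          obtain ⟨g1, g2⟩ := chain hm ha hj
          have h3 : Nat.gcd (m iV) (2 ^ (κ.factorization 2 + 1)) ∣
              Nat.gcd (m j) (2 ^ (κ.factorization 2 + 1)) := Nat.gcd_dvd_gcd_of_dvd_left _ g1
          exact (g2.symm.of_dvd (Nat.gcd_dvd_left _ _)).trans (h2.of_dvd h3)
      · exact ⟨0, 0, fun h => absurd h hV⟩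
    choose iV NV hVlev using hlev
    have hun : ∀ V : Subgroup ℚˣ, ∃ H : ℕ, V ∈ F → ∀ p : ℕ, ∀ hp : p.Prime, H < p → V ≤ Qs p hp 0 := by
      intro V
      by_cases hV : V ∈ F
      · obtain ⟨H, hH⟩ := fg_units V (hF V hV).1
        exact ⟨H, fun _ => hH⟩
      · exact ⟨0, fun h => absurd h hV⟩
    choose HV hHV using hun
    obtain ⟨j, hj, hfreq⟩ := hE2 F (fun V hV hVE => (hF V hV).2.1 ⟨hVE, (hF V hV).1⟩)
      (max (max i i₀) (F.sup iV))
    have hji : i ≤ j := (le_max_left _ _).trans ((le_max_left _ _).trans hj)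
    have hji₀ : i₀ ≤ j := (le_max_right _ _).trans ((le_max_left _ _).trans hj)
    have hjV : ∀ V ∈ F, iV V ≤ j := fun V hV =>
      (Finset.le_sup (f := iV) hV).trans ((le_max_right _ _).trans hj)
    refine ⟨S j, ?_⟩
    refine (hfreq.and_eventually ((hTS j).and (eventually_ge_atTop (F.sup NV + F.sup HV + 3)))).mono ?_
    rintro N ⟨hN1, ⟨hN2, hN3⟩, hN4⟩
    have hN3r : (3 : ℝ) ≤ N := by exact_mod_cast (show 3 ≤ N by omega)
    have hl : 0 < Real.log N := Real.log_pos (by linarith)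
    -- the good strings
    have hgood : cnt (T j N) (fun n => ∀ V ∈ F, ¬ Bad (Wm j) (S j) V n) ≤
        cnt (Ioc N (2 * N)) (fun n => r < #{p ∈ Icc n (n + S j) | p.Prime} ∧
          GoodAt (m i) (a i) κ (S j) F n) := by
      refine (cnt_le_card (t := (Ioc N (2 * N)).filter (fun n => r < #{p ∈ Icc n (n + S j) | p.Prime} ∧
          GoodAt (m i) (a i) κ (S j) F n)) fun n hnT hnb => ?_).trans
        (le_of_eq (by unfold cnt; congr))
      obtain ⟨g1, g2, g3, g4, g5⟩ := hN3 n hnT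
      rw [mem_filter]
      refine ⟨mem_Ioc.2 ⟨g1, by omega⟩, ?_, ?_⟩
      · convert g3
      intro p hp hpp
      obtain ⟨hpc, hpl⟩ := g5 p hp hpp
      have hnp := (mem_Icc.1 hp).1
      have hpa : p ≡ a j [MOD m j] := (hpc.of_dvd (hmW j)).trans (hca j)
      obtain ⟨g6, g7⟩ := chain hm ha hji
      refine ⟨(hpa.of_dvd g6).trans g7, fun V hV => ?_⟩
      have hNVs : NV V ≤ F.sup NV := Finset.le_sup (f := NV) hV
      have hHVs : HV V ≤ F.sup HV := Finset.le_sup (f := HV) hV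
      have hVu : V ≤ Qs p hpp 0 := hHV V hV p hpp (by omega)
      refine ⟨hVu, index_dvdX p hpp (by omega) V hVu κ hκ fun l hl => ?_⟩
      have hgcd : ∀ e : ℕ, e ∣ p - 1 → ¬ a j ≡ 1 [MOD Nat.gcd (m j) e] → False := by
        intro e he hna
        apply hna
        have h1 : 1 ≡ p [MOD e] := (Nat.modEq_iff_dvd' hpp.one_lt.le).2 he
        exact (hpa.of_dvd (Nat.gcd_dvd_left (m j) e)).symm.trans
          (h1.symm.of_dvd (Nat.gcd_dvd_right (m j) e))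
      by_cases hlW : l ∣ Wm j
      · by_cases hl2 : l = 2
        · subst hl2
          rcases hVlev V hV j (hjV V hV) with h1 | h1
          · right
            rintro ⟨-, h2⟩
            exact nonres p hpp (by omega) V (h1 p (by omega) hpp hpa) h2
          · left
            intro hd
            exact hgcd _ hd h1
        · left
          intro hd
          by_cases hlm : l ∣ m j
          · exact hgcd _ hd (hodd j hji₀ l hl hl2 hlm)
          · apply hc1 j l hl hlW hlm hl2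
            have h1 : l ∣ p - 1 := (dvd_pow_self l (by omega)).trans hd
            have h2 : 1 ≡ p [MOD l] := (Nat.modEq_iff_dvd' hpp.one_lt.le).2 h1
            exact (hpc.of_dvd hlW).symm.trans h2.symm
      · right
        rintro ⟨hld, h2⟩
        exact hnb V hV ⟨p, hp, hpp, l, hl, hlW, hld, hpp, h2⟩
    have hgr : (cnt (T j N) (fun n => ∀ V ∈ F, ¬ Bad (Wm j) (S j) V n) : ℝ) ≤
        cnt (Ioc N (2 * N)) (fun n => r < #{p ∈ Icc n (n + S j) | p.Prime} ∧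
          GoodAt (m i) (a i) κ (S j) F n) := by exact_mod_cast hgood
    calc (N : ℝ) ≤ Real.log N ^ B * (T j N).card := hN2
      _ ≤ Real.log N ^ B * (Real.log N *
          (cnt (T j N) (fun n => ∀ V ∈ F, ¬ Bad (Wm j) (S j) V n) : ℝ)) := by gcongr
      _ ≤ Real.log N ^ B * (Real.log N * (cnt (Ioc N (2 * N))
          (fun n => r < #{p ∈ Icc n (n + S j) | p.Prime} ∧ GoodAt (m i) (a i) κ (S j) F n) : ℝ)) := by
            gcongr
      _ = _ := by rw [← mul_assoc, pow_succ]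

end Pool.Agent.U289.GX
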