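import Pool.Agent.U289.GX.Main

/-!
# The primes close to `-1` in the profinite integers
-/

set_option autoImplicit false

namespace Pool.Agent.U289.GX

open Finset Filter Pool.Agent.R498.MX

open NumberTheorySymbols

theorem jac_pos (a p : ℕ) (ha : 0 < a) (h : 4 * a ∣ p + 1) : J((a : ℤ) | p) = 1 := by
  obtain ⟨b, hb⟩ := h
  have hb0 : b ≠ 0 := by
    rintro rfl
    omega
  obtain ⟨b', rfl⟩ := Nat.exists_eq_succ_of_ne_zero hb0
  have h1 : p = 4 * a * b' + (4 * a - 1) := by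
    have : 4 * a * (b' + 1) = 4 * a * b' + 4 * a := by ring
    rw [Nat.succ_eq_add_one, this] at hb
    omega
  have hodd : Odd p := by
    rw [h1]
    refine Even.add_odd ?_ ?_
    · exact ⟨2 * a * b', by ring⟩
    · exact ⟨2 * a - 1, by omega⟩
  have hmod : p % (4 * a) = 4 * a - 1 := by
    rw [h1, Nat.mul_add_mod, Nat.mod_eq_of_lt (by omega)]
  rw [jacobiSym.mod_right (a : ℤ) hodd, Int.natAbs_natCast, hmod]
  have h2 : J((4 * (a : ℤ)) | (4 * a - 1)) = 1 := by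
    rw [jacobiSym.mod_left]
    have h3 : (4 * (a : ℤ)) % ((4 * a - 1 : ℕ) : ℤ) = 1 % ((4 * a - 1 : ℕ) : ℤ) := by
      have h4 : ((4 * a - 1 : ℕ) : ℤ) = 4 * (a : ℤ) - 1 := by
        rw [Nat.cast_sub (by omega)]
        push_cast
        ring
      rw [h4, Int.emod_emod_of_dvd _ dvd_rfl |>.symm]
      rw [Int.emod_emod_of_dvd _ dvd_rfl]
      apply Int.emod_emod_of_dvd _ dvd_rfl |>.symm.trans
      rw [Int.emod_emod_of_dvd _ dvd_rfl]
      exact (Int.emod_emod_of_dvd _ dvd_rfl).symm.trans (by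
        rw [Int.emod_emod_of_dvd _ dvd_rfl]
        exact Int.ModEq.symm (Int.modEq_iff_dvd.2 ⟨1, by ring⟩))
    rw [h3, ← jacobiSym.mod_left, jacobiSym.one_left]
  rw [jacobiSym.mul_left] at h2
  have h5 : J((4 : ℤ) | (4 * a - 1)) = 1 := by
    have : (4 : ℤ) = 2 ^ 2 := by norm_num
    rw [this]
    apply jacobiSym.sq_one'
    rw [Int.gcd_comm]
    have h6 : Nat.Coprime (4 * a - 1) 2 := by
      rw [Nat.coprime_two_right]
      exact ⟨2 * a - 1, by omega⟩
    exact_mod_cast h6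
  rw [h5, one_mul] at h2
  exact h2

theorem jac_neg (a p : ℕ) (ha : 0 < a) (h : 4 * a ∣ p + 1) : J(-(a : ℤ) | p) = -1 := by
  have h4 : p % 4 = 3 := by
    obtain ⟨b, hb⟩ := (Dvd.intro a rfl : 4 ∣ 4 * a).trans h
    omega
  have hodd : Odd p := by
    rw [Nat.odd_iff]
    omega
  rw [← neg_one_mul, jacobiSym.mul_left, jac_pos a p ha h, mul_one, jacobiSym.at_neg_one hodd,
    ZMod.χ₄_nat_three_mod_four h4]

theorem sq_pos (a p : ℕ) (hp : p.Prime) (ha : 0 < a) (h : 4 * a ∣ p + 1) : IsSquare (((a : ℤ)) : ZMod p) := by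
  have : Fact p.Prime := ⟨hp⟩
  have h1 := jac_pos a p ha h
  rw [← jacobiSym.legendreSym.to_jacobiSym] at h1
  have h2 : (((a : ℤ)) : ZMod p) ≠ 0 := by
    intro h0
    rw [(legendreSym.eq_zero_iff p _).2 h0] at h1
    exact zero_ne_one h1
  exact (legendreSym.eq_one_iff p h2).1 h1

theorem nsq_neg (a p : ℕ) (hp : p.Prime) (ha : 0 < a) (h : 4 * a ∣ p + 1) :
    ¬ IsSquare ((-(a : ℤ) : ℤ) : ZMod p) := by
  have : Fact p.Prime := ⟨hp⟩
  have h1 := jac_neg a p ha h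
  rw [← jacobiSym.legendreSym.to_jacobiSym] at h1
  exact (legendreSym.eq_neg_one_iff p).1 h1

end Pool.Agent.U289.GX
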