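import Pool.Agent.U289.GX.Neg

/-!
# The index modulo primes close to `-1`
-/

set_option autoImplicit false

namespace Pool.Agent.U289.GX

open Finset Filter Pool.Agent.R498.MX

/-- modulo the primes `p` with `4 |num(w) den(w)| ∣ p + 1` for the generators `w` of `V` and for one negative
element, if there is one, the index of `V` is `1` or `2` according to whether there is a negative element -/
theorem index_val (p : ℕ) (hp : p.Prime) (V : Subgroup ℚˣ) (hu : V ≤ Qs p hp 0)
    (hi : (img p V).index ∣ 2) (Gs : Finset ℚˣ) (hG : Subgroup.closure (Gs : Set ℚˣ) = V)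
    (hdiv : ∀ w ∈ Gs, 4 * ((w : ℚ).num * (w : ℚ).den).natAbs ∣ p + 1) (h4 : 4 ∣ p + 1)
    (hneg : (∃ w ∈ V, (w : ℚ) < 0) →
      ∃ w ∈ V, (w : ℚ) < 0 ∧ 4 * ((w : ℚ).num * (w : ℚ).den).natAbs ∣ p + 1) :
    ((∃ w ∈ V, (w : ℚ) < 0) → (img p V).index = 1) ∧
      ((¬ ∃ w ∈ V, (w : ℚ) < 0) → (img p V).index = 2) := by
  have : Fact p.Prime := ⟨hp⟩
  have hp2 : 2 < p := by
    have := hp.two_le
    omega
  have hcases := (Nat.dvd_prime Nat.prime_two).1 hi
  have hnd : ∀ w : ℚˣ, 0 < ((w : ℚ).num * (w : ℚ).den).natAbs := by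
    intro w
    rw [Int.natAbs_pos]
    have h1 : (w : ℚ).num ≠ 0 := Rat.num_ne_zero.2 w.ne_zero
    have h2 := (w : ℚ).den_nz
    exact mul_ne_zero h1 (by exact_mod_cast h2)
  constructor
  · intro hex
    obtain ⟨w, hw, hw0, hwd⟩ := hneg hex
    rcases hcases with h | h
    · exact h
    · exfalso
      have h1 := (img_index p hp V hu 2 Nat.prime_two (by rw [h])).2
      refine nonres p hp hp2 V ⟨w, hw, ?_⟩ h1
      have h2 : (w : ℚ).num * (w : ℚ).den = -((((w : ℚ).num * (w : ℚ).den).natAbs : ℕ) : ℤ) := by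
        have h3 : (w : ℚ).num < 0 := Rat.num_neg.2 hw0
        have h5 : (0 : ℤ) < (w : ℚ).den := by exact_mod_cast (w : ℚ).den_pos
        have h6 : (w : ℚ).num * (w : ℚ).den < 0 := mul_neg_of_neg_of_pos h3 h5
        rw [Int.ofNat_natAbs_of_nonpos h6.le]
        ring
      rw [h2]
      exact nsq_neg _ p hp (hnd w) hwd
  · intro hno
    rcases hcases with h | h
    · exfalso
      have hpp : (p - 1) / 2 = p / 2 := by omega
      -- all elements of `V` are squares
      have hV : V ≤ Qs p hp ((p - 1) / 2) := by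
        rw [← hG, Subgroup.closure_le]
        intro w hw
        have hwG : w ∈ Gs := hw
        have hwV : w ∈ V := by
          rw [← hG]
          exact Subgroup.subset_closure hw
        have hw0 : 0 < (w : ℚ) := lt_of_le_of_ne (not_lt.1 fun h' => hno ⟨w, hwV, h'⟩) w.ne_zero.symm
        have h0 := hu hwV
        rw [Qs_mem] at h0
        change w ∈ Qs p hp ((p - 1) / 2)
        rw [Qs_mem]
        refine ⟨h0.1, ?_⟩
        have hn0 : (((w : ℚ).num : ℤ) : ZMod p) ≠ 0 :=
          fun h => h0.1.1 ((ZMod.intCast_zmod_eq_zero_iff_dvd _ _).1 h)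
        have hd0 : (((w : ℚ).den : ℕ) : ZMod p) ≠ 0 :=
          fun h => h0.1.2 ((ZMod.natCast_eq_zero_iff _ _).1 h)
        have h1 : ((((w : ℚ).num * (w : ℚ).den).natAbs : ℕ) : ℤ) = (w : ℚ).num * (w : ℚ).den := by
          have h3 : 0 < (w : ℚ).num := Rat.num_pos.2 hw0
          have h5 : (0 : ℤ) < (w : ℚ).den := by exact_mod_cast (w : ℚ).den_pos
          exact Int.natAbs_of_nonneg (mul_pos h3 h5).le
        have h2 := sq_pos _ p hp (hnd w) (hdiv w hwG)
        rw [h1] at h2
        push_cast at h2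
        have h3 := (ZMod.euler_criterion p (mul_ne_zero hn0 hd0)).1 h2
        rw [mul_pow] at h3
        have h5 : (((w : ℚ).den : ℕ) : ZMod p) ^ (p / 2) * (((w : ℚ).den : ℕ) : ZMod p) ^ (p / 2) = 1 := by
          rw [← mul_pow]
          exact (ZMod.euler_criterion p (mul_ne_zero hd0 hd0)).1 ⟨_, rfl⟩
        rw [hpp]
        exact mul_right_cancel₀ (pow_ne_zero _ hd0) (h3.trans h5.symm)
      have htop : img p V = ⊤ := Subgroup.index_eq_one.1 h
      obtain ⟨x, hx⟩ := FiniteField.exists_nonsquare (F := ZMod p) (by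
        rw [ZMod.ringChar_zmod_n]
        omega)
      have hx0 : x ≠ 0 := by
        rintro rfl
        exact hx (IsSquare.zero)
      apply hx
      rw [ZMod.euler_criterion p hx0]
      have hxu : Units.mk0 x hx0 ∈ img p V := by
        rw [htop]
        exact Subgroup.mem_top _
      have hall : ∀ u ∈ img p V, ((u : (ZMod p)ˣ) : ZMod p) ^ (p / 2) = 1 := by
        intro u hu'
        unfold img at hu'
        induction hu' using Subgroup.closure_induction with
        | mem u h =>
          obtain ⟨w, hw, hwu⟩ := h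
          have h1 := hV hw
          rw [Qs_mem, hpp] at h1
          have hd0 : (((w : ℚ).den : ℕ) : ZMod p) ≠ 0 :=
            fun h => h1.1.2 ((ZMod.natCast_eq_zero_iff _ _).1 h)
          have h2 := h1.2
          rw [hwu, mul_pow] at h2
          have h3 : ((u : ZMod p) ^ (p / 2)) * (((w : ℚ).den : ℕ) : ZMod p) ^ (p / 2) =
              1 * (((w : ℚ).den : ℕ) : ZMod p) ^ (p / 2) := by rw [h2, one_mul]
          exact mul_right_cancel₀ (pow_ne_zero _ hd0) h3
        | one => simp
        | mul u v _ _ h1 h2 => rw [Units.val_mul, mul_pow, h1, h2, one_mul]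
        | inv u _ h1 =>
          have h2 : ((u⁻¹ : (ZMod p)ˣ) : ZMod p) ^ (p / 2) * ((u : (ZMod p)ˣ) : ZMod p) ^ (p / 2) = 1 := by
            rw [← mul_pow, Units.inv_mul, one_pow]
          rwa [h1, mul_one] at h2
      exact hall _ hxu
    · exact h

end Pool.Agent.U289.GX
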