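import Pool.Agent.R498.MX.MX13
import Pool.Agent.U289.GX.Alm

/-!
# Strings of consecutive primes with `p - 1` free of small primes, and few exceptions

A form of `R498.MX.strings` in which the set of the primes of a string is not mentioned, and the bound for the
number of strings at which many groups of a family are small.
-/

set_option autoImplicit false

namespace Pool.Agent.U289.GX

open Finset Filter Pool.Agent.R498.MX

open Classical in
/-- The strings: `T` consists of integers `n` in `(N, 2 N - S]` such that `[n, n + S]` contains more than `m` and at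
most `2 ^ k` primes, all of them are `≡ c` modulo `W`, and the prime factors of `p - 1` not dividing `W` are at
least `N ^ δ`. -/
def Str (m k B : ℕ) (δ : ℝ) (W c S N : ℕ) (T : Finset ℕ) : Prop :=
  (N : ℝ) ≤ Real.log N ^ B * T.card ∧ ∀ n ∈ T, N < n ∧ n + S ≤ 2 * N ∧
    m < #{p ∈ Icc n (n + S) | p.Prime} ∧ #{p ∈ Icc n (n + S) | p.Prime} ≤ 2 ^ k ∧
    ∀ p ∈ Icc n (n + S), p.Prime → p ≡ c [MOD W] ∧
      ∀ l : ℕ, l.Prime → ¬ l ∣ W → l ∣ p - 1 → (N : ℝ) ^ δ ≤ l

open Classical in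
theorem strT (m : ℕ) :
    ∃ (k P₀ B : ℕ) (δ : ℝ), 0 < δ ∧ δ ≤ 1 ∧ 2 ≤ P₀ ∧
      ∀ W : ℕ, 0 < W → (∀ p : ℕ, p.Prime → p ≤ P₀ → p ∣ W) → ∃ S : ℕ,
      ∀ c : ℕ, c.Coprime W → ∀ᶠ N : ℕ in atTop, ∃ T : Finset ℕ, Str m k B δ W c S N T := by
  obtain ⟨k, P₀, B, δ', hδ', hP₀, hstr⟩ := strings m
  refine ⟨k, P₀, B, min δ' 1, lt_min hδ' one_pos, min_le_right _ _, hP₀, fun W hW0 hWp => ?_⟩
  obtain ⟨S, hS⟩ := hstr W hW0 hWp
  refine ⟨S, fun c hcW => ?_⟩
  filter_upwards [hS, eventually_ge_atTop 3] with N hN hN3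
  obtain ⟨H, hHm, hHk, hHS, T, hT, hmem⟩ := hN c hcW
  refine ⟨T, hT, fun n hn => ?_⟩
  obtain ⟨g1, g2, g3, g4, g5⟩ := hmem n hn
  have hset : ({p ∈ Icc n (n + S) | p.Prime} : Finset ℕ) = H.image (fun h => n + h) := by
    ext p
    rw [mem_filter, mem_Icc, mem_image]
    constructor
    · rintro ⟨⟨p1, p2⟩, p3⟩
      obtain ⟨h, rfl⟩ := Nat.exists_eq_add_of_le p1
      exact ⟨h, g5 h (by omega) p3, rfl⟩
    · rintro ⟨h, hh, rfl⟩
      have h3 := hHS h hh
      exact ⟨⟨by omega, by omega⟩, (g3 h hh).1⟩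
  have hcard : #{p ∈ Icc n (n + S) | p.Prime} = H.card := by
    rw [hset, card_image_of_injective _ (fun x y hxy => by
      have : n + x = n + y := hxy
      omega)]
  refine ⟨g1, g2, by rw [hcard]; exact hHm, by rw [hcard]; exact hHk, fun p hp hpp => ?_⟩
  rw [mem_Icc] at hp
  obtain ⟨h, rfl⟩ := Nat.exists_eq_add_of_le hp.1
  have hh : h ∈ H := g5 h (by omega) hpp
  refine ⟨(g3 h hh).2, fun l hl hlW hld => le_trans ?_ (g4 h hh l hl hlW hld)⟩
  exact Real.rpow_le_rpow_of_exponent_le (by exact_mod_cast (show 1 ≤ N by omega)) (min_le_left _ _)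

/-- the image of `V` modulo `p` is contained in the `l`-th powers, for some prime `l` not dividing `W` -/
def Small (W : ℕ) (V : Subgroup ℚˣ) (p : ℕ) : Prop :=
  ∃ l : ℕ, l.Prime ∧ ¬ l ∣ W ∧ l ∣ p - 1 ∧ ∃ hp : p.Prime, V ≤ Qs p hp ((p - 1) / l)

/-- `V` is small modulo some prime of the string -/
def Bad (W S : ℕ) (V : Subgroup ℚˣ) (n : ℕ) : Prop :=
  ∃ p ∈ Icc n (n + S), p.Prime ∧ Small W V p

/-- the rank of `V` is at least `R` -/
def RankGE (R : ℕ) (V : Subgroup ℚˣ) : Prop :=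
  ∃ b : Fin R → ℚˣ, (∀ j, b j ∈ V) ∧ ∀ e : Fin R → ℤ, ∏ j, b j ^ e j = 1 → ∀ j, e j = 0

/-- **Few strings at which many groups are small.** -/
theorem few_strings (m k B : ℕ) (δ : ℝ) (hδ : 0 < δ) (K : ℕ) (hK : K = ⌈2 / δ⌉₊) (W c S : ℕ) (h2W : 2 ∣ W)
    (J : Finset (Subgroup ℚˣ)) (hFG : ∀ V ∈ J, V.FG) (h : ℕ) (hh : 1 ≤ h)
    (hJ : ∀ I ⊆ J, I.card = h → RankGE K (sSup (I : Set (Subgroup ℚˣ)))) :
    ∀ᶠ N : ℕ in atTop, ∀ T : Finset ℕ, Str m k B δ W c S N T →
      Real.log N * (cnt T (fun n => 2 ^ k * K * (h - 1) < cnt J (fun V => Bad W S V n)) : ℝ) ≤ T.card := by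
  classical
  have hK1 : 1 ≤ K := by
    rw [hK]
    exact Nat.one_le_ceil_iff.2 (by positivity)
  -- the units
  have hun : ∀ V : Subgroup ℚˣ, ∃ H : ℕ, V ∈ J → ∀ p : ℕ, ∀ hp : p.Prime, H < p → V ≤ Qs p hp 0 := by
    intro V
    by_cases hV : V ∈ J
    · obtain ⟨H, hH⟩ := fg_units V (hFG V hV)
      exact ⟨H, fun _ => hH⟩
    · exact ⟨0, fun h => absurd h hV⟩
  choose HW hHW using hun
  obtain ⟨H₀, hH₀⟩ : ∃ H₀ : ℕ, H₀ = ∑ V ∈ J, HW V := ⟨_, rfl⟩
  obtain ⟨C₁, H, hC₁, hgm⟩ := gmfamX δ hδ K hK J h hh W h2W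
    (fun V p l => ∃ hp : p.Prime, V ≤ Qs p hp ((p - 1) / l)) H₀ (by
      intro I hIJ hIc
      obtain ⟨b, hb1, hb2⟩ := hJ I hIJ hIc
      refine ⟨fun j => ((b j : ℚˣ) : ℚ), fun j => (b j).ne_zero, ?_, ?_⟩
      · intro e he
        apply hb2 e
        apply Units.ext
        rw [Units.val_one, ← he]
        push_cast
        rfl
      · intro p l hp hpH hl hl3 hlp hall j
        have h1 : sSup (I : Set (Subgroup ℚˣ)) ≤ Qs p hp ((p - 1) / l) := by
          apply sSup_le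
          intro V hV
          obtain ⟨_, h2⟩ := hall V hV
          exact h2
        have h2 := h1 (hb1 j)
        rw [Qs_mem] at h2
        exact h2.2)
  have he : (0 : ℝ) < (1 / (K : ℝ)) ^ 2 := by
    have : (0 : ℝ) < K := by exact_mod_cast hK1
    positivity
  filter_upwards [pow_log_small ((1 / (K : ℝ)) ^ 2) ((S + 1) * C₁) (B + 1) he (by positivity),
    eventually_ge_atTop (H + 3)] with N hNs hN3 T hT
  have hN0 : (0 : ℝ) < N := by exact_mod_cast (show 0 < N by omega)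
  have hN1 : (1 : ℝ) < N := by exact_mod_cast (show 1 < N by omega)
  have hl : 0 < Real.log N := Real.log_pos hN1
  obtain ⟨Bs, hB1, hB2⟩ := hgm N (by omega)
  obtain ⟨hTc, hTm⟩ := hT
  -- the bad strings meet `Bs`
  have hsub : cnt T (fun n => 2 ^ k * K * (h - 1) < cnt J (fun V => Bad W S V n)) ≤
      (Bs.biUnion (fun p => Icc (p - S) p)).card := by
    refine cnt_le_card fun n hnT hnb => ?_
    obtain ⟨g1, g2, g3, g4, g5⟩ := hTm n hnT
    rw [mem_biUnion]
    by_contra hcon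
    push Not at hcon
    apply not_le.2 hnb
    have h1 : J.filter (fun V => Bad W S V n) ⊆
        ((Icc n (n + S)).filter (fun p => p.Prime)).biUnion (fun p => J.filter (fun V => Small W V p)) := by
      intro V hV
      rw [mem_filter] at hV
      obtain ⟨hVJ, p, hp, hpp, hs⟩ := hV
      rw [mem_biUnion]
      exact ⟨p, mem_filter.2 ⟨hp, hpp⟩, mem_filter.2 ⟨hVJ, hs⟩⟩
    have h2 : #(J.filter (fun V => Bad W S V n)) ≤ 2 ^ k * K * (h - 1) := by
      refine (card_le_card h1).trans (card_biUnion_le.trans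
        ((sum_le_card_nsmul _ _ (K * (h - 1)) fun p hp => ?_).trans ?_))
      · rw [mem_filter] at hp
        obtain ⟨hp1, hp2⟩ := hp
        have hp3 := mem_Icc.1 hp1
        obtain ⟨g6, g7⟩ := g5 p hp1 hp2
        refine le_trans (card_le_card ?_) (hB2 p hp2 (by omega) (by omega) g7 (fun hpB => hcon p hpB ?_))
        · intro V hV
          rw [mem_filter] at hV ⊢
          exact hV
        · rw [mem_Icc]
          omega
      · rw [smul_eq_mul, mul_assoc]
        refine Nat.mul_le_mul_right _ (le_trans (card_le_card ?_) g4)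
        intro p hp
        rw [mem_filter] at hp ⊢
        exact hp
    exact (cnt_le_card fun V hV hb => mem_filter.2 ⟨hV, hb⟩).trans h2
  have hcard : (cnt T (fun n => 2 ^ k * K * (h - 1) < cnt J (fun V => Bad W S V n)) : ℝ) ≤
      (S + 1) * Bs.card := by
    have h1 : (Bs.biUnion (fun p => Icc (p - S) p)).card ≤ Bs.card * (S + 1) := by
      refine card_biUnion_le.trans ((sum_le_card_nsmul _ _ (S + 1) fun p _ => ?_).trans ?_)
      · rw [Nat.card_Icc]
        omega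
      · rw [smul_eq_mul]
    have h3 : (cnt T (fun n => 2 ^ k * K * (h - 1) < cnt J (fun V => Bad W S V n)) : ℝ) ≤
        Bs.card * (S + 1) := by
      exact_mod_cast hsub.trans h1
    linarith
  have hlB : (0 : ℝ) < Real.log N ^ B := by positivity
  refine le_of_mul_le_mul_left (a := Real.log N ^ B) ?_ hlB
  refine le_trans ?_ hTc
  calc Real.log N ^ B * (Real.log N * (cnt T (fun n => 2 ^ k * K * (h - 1) < cnt J (fun V => Bad W S V n)) : ℝ))
      ≤ Real.log N ^ B * (Real.log N * ((S + 1) * (C₁ * (N : ℝ) ^ (1 - (1 / (K : ℝ)) ^ 2)))) := by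
        gcongr
        refine hcard.trans ?_
        gcongr
    _ = ((S + 1) * C₁ * Real.log N ^ (B + 1)) * (N : ℝ) ^ (1 - (1 / (K : ℝ)) ^ 2) := by
        rw [pow_succ]
        ring
    _ ≤ (N : ℝ) ^ ((1 / (K : ℝ)) ^ 2) * (N : ℝ) ^ (1 - (1 / (K : ℝ)) ^ 2) := by gcongr
    _ = N := by
        rw [← Real.rpow_add hN0]
        norm_num

end Pool.Agent.U289.GX
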